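import Mathlib
import Pool.Agent.N921.QD.Def

/-!
# The q-division ring exists (project QD, helper921)

The quantum plane is realised by operators on the finitely supported functions on `ℕ × ℕ`; it is a
domain (leading exponents) and satisfies both Ore conditions (dimension count).
-/

set_option autoImplicit false

namespace Pool.Agent.N771.QD

open Pool.Agent.N921.QD

/-! ### The Ore conditions -/

section abs

variable {k A : Type} [Field k] [Ring A] [Algebra k A]

/-- the monomials of a quantum plane -/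
structure Plane (q : k) (M : ℕ × ℕ → A) : Prop where
  zero : M 0 = 1
  mul : ∀ m n, M m * M n = (q ^ (m.2 * n.1))⁻¹ • M (m + n)
  indep : LinearIndependent k M
  dom : ∀ a ∈ Submodule.span k (Set.range M), ∀ b ∈ Submodule.span k (Set.range M), a * b = 0 →
    a = 0 ∨ b = 0

variable {q : k} {M : ℕ × ℕ → A}

/-- the quantum plane -/
def R (h : Plane q M) : Subalgebra k A :=
  (Submodule.span k (Set.range M)).toSubalgebra (by
    rw [← h.zero]
    exact Submodule.subset_span ⟨0, rfl⟩) (by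
    intro a b ha hb
    have h1 : Submodule.span k (Set.range M) * Submodule.span k (Set.range M) ≤
        Submodule.span k (Set.range M) := by
      rw [Submodule.span_mul_span, Submodule.span_le]
      rintro _ ⟨_, ⟨m, rfl⟩, _, ⟨n, rfl⟩, rfl⟩
      show M m * M n ∈ _
      rw [h.mul]
      exact Submodule.smul_mem _ _ (Submodule.subset_span ⟨_, rfl⟩)
    exact h1 (Submodule.mul_mem_mul ha hb))

lemma mem_R (h : Plane q M) (a : A) : a ∈ R h ↔ a ∈ Submodule.span k (Set.range M) := Iff.rfl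

instance noZero (h : Plane q M) : NoZeroDivisors (R h) := by
  constructor
  rintro ⟨a, ha⟩ ⟨b, hb⟩ hab
  rcases h.dom a ha b hb (congrArg Subtype.val hab) with h1 | h1
  · exact Or.inl (Subtype.ext h1)
  · exact Or.inr (Subtype.ext h1)

lemma one_ne (h : Plane q M) : (1 : A) ≠ 0 := by
  rw [← h.zero]
  exact h.indep.ne_zero 0

instance nontriv (h : Plane q M) : Nontrivial (R h) :=
  ⟨⟨0, 1, fun h1 => one_ne h (congrArg Subtype.val h1).symm⟩⟩

open Classical in
/-- the monomials with exponents less than `n` -/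
noncomputable def bx (M : ℕ × ℕ → A) (n : ℕ) : Finset A :=
  (Finset.range n ×ˢ Finset.range n).image M

/-- the span of the monomials with exponents less than `n` -/
noncomputable def B (k : Type) [Field k] [Algebra k A] (M : ℕ × ℕ → A) (n : ℕ) : Submodule k A :=
  Submodule.span k (bx M n : Set A)

lemma M_mem_B (n : ℕ) (p : ℕ × ℕ) (h1 : p.1 < n) (h2 : p.2 < n) : M p ∈ B k M n := by
  classical
  apply Submodule.subset_span
  rw [Finset.mem_coe, bx, Finset.mem_image]
  exact ⟨p, by rw [Finset.mem_product, Finset.mem_range, Finset.mem_range]; exact ⟨h1, h2⟩, rfl⟩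

lemma B_le_P (n : ℕ) : B k M n ≤ Submodule.span k (Set.range M) := by
  classical
  rw [B, Submodule.span_le]
  intro a ha
  rw [Finset.mem_coe, bx, Finset.mem_image] at ha
  obtain ⟨p, -, rfl⟩ := ha
  exact Submodule.subset_span ⟨p, rfl⟩

lemma finrank_B (n : ℕ) : Module.finrank k (B k M n) ≤ n ^ 2 := by
  classical
  have h1 := finrank_span_finset_le_card (R := k) (bx M n)
  have h2 : (bx M n).card ≤ n ^ 2 := by
    refine Finset.card_image_le.trans ?_
    rw [Finset.card_product, Finset.card_range, sq]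
  exact h1.trans h2

instance finite_B (n : ℕ) : FiniteDimensional k (B k M n) :=
  FiniteDimensional.span_finset k (bx M n)

lemma exists_B (a : A) (ha : a ∈ Submodule.span k (Set.range M)) : ∃ m : ℕ, a ∈ B k M (m + 1) := by
  classical
  rw [← Finsupp.range_linearCombination] at ha
  obtain ⟨f, rfl⟩ := ha
  refine ⟨∑ p ∈ f.support, (p.1 + p.2), ?_⟩
  rw [Finsupp.linearCombination_apply, Finsupp.sum]
  refine Submodule.sum_mem _ fun p hp => Submodule.smul_mem _ _ ?_
  have h1 : p.1 + p.2 ≤ ∑ p ∈ f.support, (p.1 + p.2) :=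
    Finset.single_le_sum (f := fun p : ℕ × ℕ => p.1 + p.2) (fun _ _ => Nat.zero_le _) hp
  exact M_mem_B _ p (by omega) (by omega)

lemma B_mono {m n : ℕ} (h : m ≤ n) : B k M m ≤ B k M n := by
  classical
  rw [B, Submodule.span_le]
  intro a ha
  rw [Finset.mem_coe, bx, Finset.mem_image] at ha
  obtain ⟨p, hp, rfl⟩ := ha
  rw [Finset.mem_product, Finset.mem_range, Finset.mem_range] at hp
  exact M_mem_B _ p (by omega) (by omega)

lemma B_mul (h : Plane q M) (m n : ℕ) (a b : A) (ha : a ∈ B k M (m + 1))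
    (hb : b ∈ B k M (n + 1)) : a * b ∈ B k M (m + n + 1) := by
  classical
  have h1 : B k M (m + 1) * B k M (n + 1) ≤ B k M (m + n + 1) := by
    rw [B, B, Submodule.span_mul_span, Submodule.span_le]
    rintro _ ⟨a, ha, b, hb, rfl⟩
    rw [Finset.mem_coe, bx, Finset.mem_image] at ha hb
    obtain ⟨p, hp, rfl⟩ := ha
    obtain ⟨r, hr, rfl⟩ := hb
    rw [Finset.mem_product, Finset.mem_range, Finset.mem_range] at hp hr
    show M p * M r ∈ B k M (m + n + 1)
    rw [h.mul]
    refine Submodule.smul_mem _ _ (M_mem_B _ _ ?_ ?_)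
    · rw [Prod.fst_add]; omega
    · rw [Prod.snd_add]; omega
  exact h1 (Submodule.mul_mem_mul ha hb)

/-- the dimension count -/
lemma key (h : Plane q M) (m : ℕ) (L₁ L₂ : A →ₗ[k] A)
    (h1 : ∀ n, ∀ a ∈ B k M (n + 1), L₁ a ∈ B k M (m + n + 1))
    (h2 : ∀ n, ∀ a ∈ B k M (n + 1), L₂ a ∈ B k M (m + n + 1)) :
    ∃ r ∈ Submodule.span k (Set.range M), ∃ t ∈ Submodule.span k (Set.range M),
      (r ≠ 0 ∨ t ≠ 0) ∧ L₁ r = L₂ t := by
  classical
  obtain ⟨n, hn⟩ : ∃ n : ℕ, n = 3 * m + 2 := ⟨_, rfl⟩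
  obtain ⟨S, hS⟩ : ∃ S : (Fin (n + 1) × Fin (n + 1) → k) →ₗ[k] A,
    S = Fintype.linearCombination k (fun p : Fin (n + 1) × Fin (n + 1) => M ((p.1 : ℕ), (p.2 : ℕ))) := ⟨_, rfl⟩
  have hSB : ∀ u, S u ∈ B k M (n + 1) := by
    intro u
    rw [hS, Fintype.linearCombination_apply]
    refine Submodule.sum_mem _ fun p _ => Submodule.smul_mem _ _ ?_
    exact M_mem_B _ _ p.1.2 p.2.2
  have hinj : ∀ u, S u = 0 → u = 0 := by
    intro u hu
    have hl : LinearIndependent k (fun p : Fin (n + 1) × Fin (n + 1) => M ((p.1 : ℕ), (p.2 : ℕ))) := by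
      refine h.indep.comp (fun p : Fin (n + 1) × Fin (n + 1) => ((p.1 : ℕ), (p.2 : ℕ))) ?_
      rintro ⟨a, b⟩ ⟨c, d⟩ h
      simp only [Prod.mk.injEq] at h
      exact Prod.ext (Fin.ext h.1) (Fin.ext h.2)
    rw [Fintype.linearIndependent_iff] at hl
    rw [hS, Fintype.linearCombination_apply] at hu
    funext i
    exact hl u hu i
  obtain ⟨Φ, hΦ⟩ : ∃ Φ : ((Fin (n + 1) × Fin (n + 1) → k) × (Fin (n + 1) × Fin (n + 1) → k)) →ₗ[k] A,
    Φ = (L₁ ∘ₗ S).coprod (-(L₂ ∘ₗ S)) := ⟨_, rfl⟩
  have hΦB : ∀ u, Φ u ∈ B k M (m + n + 1) := by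
    intro u
    rw [hΦ, LinearMap.coprod_apply, LinearMap.neg_apply, ← sub_eq_add_neg]
    exact Submodule.sub_mem _ (h1 n _ (hSB _)) (h2 n _ (hSB _))
  have hdim : Module.finrank k (B k M (m + n + 1)) <
      Module.finrank k ((Fin (n + 1) × Fin (n + 1) → k) × (Fin (n + 1) × Fin (n + 1) → k)) := by
    refine (finrank_B _).trans_lt ?_
    rw [Module.finrank_prod, Module.finrank_fintype_fun_eq_card, Fintype.card_prod, Fintype.card_fin]
    have e1 : m + n + 1 = 4 * m + 3 := by omega
    have e2 : n + 1 = 3 * m + 3 := by omega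
    rw [e1, e2]
    nlinarith [Nat.zero_le m]
  have hker := LinearMap.ker_ne_bot_of_finrank_lt (f := LinearMap.codRestrict (B k M (m + n + 1)) Φ hΦB) hdim
  obtain ⟨⟨u, v⟩, huv, hne⟩ := Submodule.exists_mem_ne_zero_of_ne_bot hker
  rw [LinearMap.mem_ker] at huv
  have h3 : Φ (u, v) = 0 := by
    have := congrArg Subtype.val huv
    exact this
  rw [hΦ, LinearMap.coprod_apply, LinearMap.neg_apply, ← sub_eq_add_neg, sub_eq_zero] at h3
  refine ⟨S u, B_le_P _ (hSB u), S v, B_le_P _ (hSB v), ?_, h3⟩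
  by_contra hcon
  rw [not_or, not_not, not_not] at hcon
  exact hne (Prod.ext (hinj u hcon.1) (hinj v hcon.2))

/-- left Ore condition -/
lemma oreL (h : Plane q M) (a b : R h) (ha : a ≠ 0) (hb : b ≠ 0) :
    ∃ r t : R h, r ≠ 0 ∧ t ≠ 0 ∧ r * a = t * b := by
  obtain ⟨m₁, hm₁⟩ := exists_B (k := k) (a : A) a.2
  obtain ⟨m₂, hm₂⟩ := exists_B (k := k) (b : A) b.2
  obtain ⟨m, hm⟩ : ∃ m, m = max m₁ m₂ := ⟨_, rfl⟩
  have ha' : (a : A) ∈ B k M (m + 1) := B_mono (by omega) hm₁
  have hb' : (b : A) ∈ B k M (m + 1) := B_mono (by omega) hm₂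
  obtain ⟨r, hr, t, ht, hne, he⟩ := key h m (LinearMap.mulRight k (a : A)) (LinearMap.mulRight k (b : A))
    (fun n c hc => by
      rw [LinearMap.mulRight_apply]
      have := B_mul h n m c a hc ha'
      rwa [show n + m + 1 = m + n + 1 by omega] at this)
    (fun n c hc => by
      rw [LinearMap.mulRight_apply]
      have := B_mul h n m c b hc hb'
      rwa [show n + m + 1 = m + n + 1 by omega] at this)
  rw [LinearMap.mulRight_apply, LinearMap.mulRight_apply] at he
  obtain ⟨r', hr'⟩ : ∃ r' : R h, r' = ⟨r, hr⟩ := ⟨_, rfl⟩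
  obtain ⟨t', ht'⟩ : ∃ t' : R h, t' = ⟨t, ht⟩ := ⟨_, rfl⟩
  have he' : r' * a = t' * b := by rw [hr', ht']; exact Subtype.ext he
  have h1 : r' ≠ 0 ∨ t' ≠ 0 := by
    rw [hr', ht']
    rcases hne with h | h
    · exact Or.inl fun h' => h (congrArg Subtype.val h')
    · exact Or.inr fun h' => h (congrArg Subtype.val h')
  refine ⟨r', t', ?_, ?_, he'⟩
  · rcases h1 with h | h
    · exact h
    · intro h0
      rw [h0, zero_mul] at he'
      rcases mul_eq_zero.1 he'.symm with h2 | h2
      · exact h h2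
      · exact hb h2
  · rcases h1 with h | h
    · intro h0
      rw [h0, zero_mul] at he'
      rcases mul_eq_zero.1 he' with h2 | h2
      · exact h h2
      · exact ha h2
    · exact h

/-- right Ore condition -/
lemma oreR (h : Plane q M) (a b : R h) (ha : a ≠ 0) (hb : b ≠ 0) :
    ∃ r t : R h, r ≠ 0 ∧ t ≠ 0 ∧ a * r = b * t := by
  obtain ⟨m₁, hm₁⟩ := exists_B (k := k) (a : A) a.2
  obtain ⟨m₂, hm₂⟩ := exists_B (k := k) (b : A) b.2
  obtain ⟨m, hm⟩ : ∃ m, m = max m₁ m₂ := ⟨_, rfl⟩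
  have ha' : (a : A) ∈ B k M (m + 1) := B_mono (by omega) hm₁
  have hb' : (b : A) ∈ B k M (m + 1) := B_mono (by omega) hm₂
  obtain ⟨r, hr, t, ht, hne, he⟩ := key h m (LinearMap.mulLeft k (a : A)) (LinearMap.mulLeft k (b : A))
    (fun n c hc => by
      rw [LinearMap.mulLeft_apply]
      exact B_mul h m n a c ha' hc)
    (fun n c hc => by
      rw [LinearMap.mulLeft_apply]
      exact B_mul h m n b c hb' hc)
  rw [LinearMap.mulLeft_apply, LinearMap.mulLeft_apply] at he
  obtain ⟨r', hr'⟩ : ∃ r' : R h, r' = ⟨r, hr⟩ := ⟨_, rfl⟩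
  obtain ⟨t', ht'⟩ : ∃ t' : R h, t' = ⟨t, ht⟩ := ⟨_, rfl⟩
  have he' : a * r' = b * t' := by rw [hr', ht']; exact Subtype.ext he
  have h1 : r' ≠ 0 ∨ t' ≠ 0 := by
    rw [hr', ht']
    rcases hne with h | h
    · exact Or.inl fun h' => h (congrArg Subtype.val h')
    · exact Or.inr fun h' => h (congrArg Subtype.val h')
  refine ⟨r', t', ?_, ?_, he'⟩
  · rcases h1 with h | h
    · exact h
    · intro h0
      rw [h0, mul_zero] at he'
      rcases mul_eq_zero.1 he'.symm with h2 | h2
      · exact hb h2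
      · exact h h2
  · rcases h1 with h | h
    · intro h0
      rw [h0, mul_zero] at he'
      rcases mul_eq_zero.1 he' with h2 | h2
      · exact ha h2
      · exact h h2
    · exact h

end abs

/-! ### The localization -/

section loc

open OreLocalization

/-- the Ore set of all nonzero elements -/
theorem oreSet {R : Type} [Ring R] [Nontrivial R] [NoZeroDivisors R]
    (h : ∀ a b : R, a ≠ 0 → b ≠ 0 → ∃ r t : R, r ≠ 0 ∧ t ≠ 0 ∧ r * a = t * b) :
    Nonempty (OreSet (nonZeroDivisors R)) := by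
  have h' : ∀ (r : R) (s : nonZeroDivisors R), ∃ (r' : R) (s' : nonZeroDivisors R),
      (s' : R) * r = r' * s := by
    intro r s
    by_cases hr : r = 0
    · exact ⟨0, 1, by rw [hr, mul_zero, zero_mul]⟩
    · obtain ⟨u, v, hu, -, huv⟩ := h r s hr (nonZeroDivisors.coe_ne_zero s)
      exact ⟨v, ⟨u, mem_nonZeroDivisors_of_ne_zero hu⟩, huv⟩
  choose num den hnd using h'
  exact ⟨oreSetOfNoZeroDivisors num den hnd⟩

/-- the division ring of fractions -/
theorem fractions {k R : Type} [Field k] [Ring R] [Algebra k R] [Nontrivial R] [NoZeroDivisors R]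
    (hL : ∀ a b : R, a ≠ 0 → b ≠ 0 → ∃ r t : R, r ≠ 0 ∧ t ≠ 0 ∧ r * a = t * b)
    (hR : ∀ a b : R, a ≠ 0 → b ≠ 0 → ∃ r t : R, r ≠ 0 ∧ t ≠ 0 ∧ a * r = b * t) :
    ∃ (D : Type) (_ : DivisionRing D) (_ : Algebra k D) (ι : R →ₐ[k] D), Function.Injective ι ∧
      ∀ d : D, ∃ a b : R, b ≠ 0 ∧ d * ι b = ι a := by
  obtain ⟨inst⟩ := oreSet hL
  refine ⟨OreLocalization (nonZeroDivisors R) R, OreLocalization.instDivisionRingNonZeroDivisors,
    OreLocalization.instAlgebra, { numeratorRingHom with commutes' := fun c => rfl }, ?_, ?_⟩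
  · exact OreLocalization.numeratorHom_inj (fun a ha => by
      rw [mem_nonZeroDivisorsLeft_iff]
      intro b hb
      exact (mem_nonZeroDivisors_iff.1 ha).1 b hb)
  · intro d
    induction d using OreLocalization.ind with
    | _ r s =>
      show ∃ a b : R, b ≠ 0 ∧ (r /ₒ s) * (b /ₒ 1) = a /ₒ 1
      by_cases hr : r = 0
      · refine ⟨0, 1, one_ne_zero, ?_⟩
        rw [hr, OreLocalization.zero_oreDiv, zero_mul, OreLocalization.zero_oreDiv]
      · obtain ⟨b, a, hb, ha, hab⟩ := hR r s hr (nonZeroDivisors.coe_ne_zero s)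
        refine ⟨a, b, hb, ?_⟩
        rw [OreLocalization.mul_div_one, hab, ← OreLocalization.mul_div_one,
          OreLocalization.div_eq_one, one_mul]

end loc

/-! ### The operators -/

section ops

variable (k : Type) [Field k] (q : k)

/-- the space on which the quantum plane acts -/
abbrev W : Type := (ℕ × ℕ) →₀ k

/-- the operator `x` -/
noncomputable def X : Module.End k (W k) :=
  Finsupp.linearCombination k (fun p : ℕ × ℕ => Finsupp.single (p.1 + 1, p.2) (q ^ p.2))

/-- the operator `y` -/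
noncomputable def Y : Module.End k (W k) :=
  Finsupp.linearCombination k (fun p : ℕ × ℕ => Finsupp.single (p.1, p.2 + 1) (1 : k))

lemma X_single (a b : ℕ) (c : k) :
    X k q (Finsupp.single (a, b) c) = Finsupp.single (a + 1, b) (q ^ b * c) := by
  rw [X, Finsupp.linearCombination_single, Finsupp.smul_single, smul_eq_mul, mul_comm]

lemma Y_single (a b : ℕ) (c : k) :
    Y k (Finsupp.single (a, b) c) = Finsupp.single (a, b + 1) c := by
  rw [Y, Finsupp.linearCombination_single, Finsupp.smul_single, smul_eq_mul, mul_one]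

lemma X_pow_single (i a b : ℕ) (c : k) :
    (X k q ^ i) (Finsupp.single (a, b) c) = Finsupp.single (a + i, b) (q ^ (i * b) * c) := by
  induction i with
  | zero => simp
  | succ i ih =>
    rw [pow_succ', Module.End.mul_apply, ih, X_single]
    congr 1
    rw [← mul_assoc, ← pow_add]
    congr 2
    ring

lemma Y_pow_single (j a b : ℕ) (c : k) :
    (Y k ^ j) (Finsupp.single (a, b) c) = Finsupp.single (a, b + j) c := by
  induction j with
  | zero => simp
  | succ j ih =>
    rw [pow_succ', Module.End.mul_apply, ih, Y_single]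
    rfl

/-- the monomials -/
noncomputable def M (p : ℕ × ℕ) : Module.End k (W k) := X k q ^ p.1 * Y k ^ p.2

lemma M_single (m p : ℕ × ℕ) (c : k) :
    M k q m (Finsupp.single p c) = Finsupp.single (p + m) (q ^ (m.1 * (p.2 + m.2)) * c) := by
  obtain ⟨a, b⟩ := p
  obtain ⟨i, j⟩ := m
  rw [M, Module.End.mul_apply, Y_pow_single, X_pow_single]
  rfl

lemma M_zero : M k q 0 = 1 := by
  simp [M]

lemma M_mul (hq : q ≠ 0) (m n : ℕ × ℕ) :
    M k q m * M k q n = (q ^ (m.2 * n.1))⁻¹ • M k q (m + n) := by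
  apply Finsupp.lhom_ext
  intro p c
  rw [Module.End.mul_apply, M_single, M_single, LinearMap.smul_apply, M_single, Finsupp.smul_single,
    smul_eq_mul, ← mul_assoc, ← mul_assoc, ← pow_add]
  have h1 : p + n + m = p + (m + n) := by abel
  rw [h1]
  congr 2
  rw [eq_inv_mul_iff_mul_eq₀ (pow_ne_zero _ hq), ← pow_add]
  congr 1
  simp only [Prod.fst_add, Prod.snd_add]
  ring

/-- the element with the given coefficients -/
noncomputable def ev : W k →ₗ[k] Module.End k (W k) := Finsupp.linearCombination k (M k q)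

lemma ev_apply (f w : W k) : ev k q f w =
    ∑ m ∈ f.support, ∑ p ∈ w.support, Finsupp.single (p + m) (f m * (q ^ (m.1 * (p.2 + m.2)) * w p)) := by
  rw [ev, Finsupp.linearCombination_apply, Finsupp.sum, LinearMap.sum_apply]
  refine Finset.sum_congr rfl fun m _ => ?_
  rw [LinearMap.smul_apply]
  conv_lhs => rw [← Finsupp.sum_single w, Finsupp.sum, map_sum]
  rw [Finset.smul_sum]
  refine Finset.sum_congr rfl fun p _ => ?_
  rw [M_single, Finsupp.smul_single, smul_eq_mul]

lemma ev_apply_ne_zero (hq : q ≠ 0) (f w : W k) (hf : f ≠ 0) (hw : w ≠ 0) : ev k q f w ≠ 0 := by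
  classical
  obtain ⟨p0, hp0, m0, hm0, hu⟩ := UniqueSums.uniqueAdd_of_nonempty
    (Finsupp.support_nonempty_iff.2 hw) (Finsupp.support_nonempty_iff.2 hf)
  intro h0
  have h1 : (ev k q f w) (p0 + m0) = 0 := by rw [h0]; rfl
  rw [ev_apply, Finset.sum_apply'] at h1
  rw [Finset.sum_eq_single m0] at h1
  · rw [Finset.sum_apply', Finset.sum_eq_single p0] at h1
    · rw [Finsupp.single_eq_same] at h1
      have h2 := Finsupp.mem_support_iff.1 hm0
      have h3 := Finsupp.mem_support_iff.1 hp0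
      have h4 : q ^ (m0.1 * (p0.2 + m0.2)) ≠ 0 := pow_ne_zero _ hq
      exact mul_ne_zero h2 (mul_ne_zero h4 h3) h1
    · intro p hp hne
      rw [Finsupp.single_apply, if_neg]
      intro h
      exact hne (hu hp hm0 h).1
    · intro h
      exact absurd hp0 h
  · intro m hm hne
    rw [Finset.sum_apply']
    refine Finset.sum_eq_zero fun p hp => ?_
    rw [Finsupp.single_apply, if_neg]
    intro h
    exact hne (hu hp hm h).2
  · intro h
    exact absurd hm0 h

lemma ev_ne_zero (hq : q ≠ 0) (f : W k) (hf : f ≠ 0) : ev k q f ≠ 0 := by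
  intro h
  have hw : (Finsupp.single (0 : ℕ × ℕ) (1 : k) : W k) ≠ 0 := by
    rw [Ne, Finsupp.single_eq_zero]
    exact one_ne_zero
  exact ev_apply_ne_zero k q hq f _ hf hw (by rw [h]; rfl)

lemma indepM (hq : q ≠ 0) : LinearIndependent k (M k q) := by
  intro f g hfg
  by_contra h
  refine ev_ne_zero k q hq (f - g) (sub_ne_zero.2 h) ?_
  rw [map_sub, sub_eq_zero]
  exact hfg

lemma plane (hq : q ≠ 0) : Plane q (M k q) where
  zero := M_zero k q
  mul := M_mul k q hq
  indep := indepM k q hq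
  dom := by
    intro a ha b hb h
    rw [← Finsupp.range_linearCombination] at ha hb
    obtain ⟨f, rfl⟩ := ha
    obtain ⟨g, rfl⟩ := hb
    by_contra hcon
    rw [not_or] at hcon
    have hf : f ≠ 0 := by
      rintro rfl
      exact hcon.1 (map_zero _)
    have hg : g ≠ 0 := by
      rintro rfl
      exact hcon.2 (map_zero _)
    have hw : (Finsupp.single (0 : ℕ × ℕ) (1 : k) : W k) ≠ 0 := by
      rw [Ne, Finsupp.single_eq_zero]
      exact one_ne_zero
    have h2 : ev k q f (ev k q g (Finsupp.single (0 : ℕ × ℕ) (1 : k))) = 0 := by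
      have h3 := congrArg (fun L : Module.End k (W k) => L (Finsupp.single (0 : ℕ × ℕ) (1 : k))) h
      exact h3
    exact ev_apply_ne_zero k q hq f _ hf (ev_apply_ne_zero k q hq g _ hg hw) h2

end ops

theorem final {k A : Type} [Field k] [Ring A] [Algebra k A] (q : k) (M : ℕ × ℕ → A) (hP : Plane q M)
    (X Y : A) (hM : ∀ p, M p = X ^ p.1 * Y ^ p.2) (hrel : X * Y = q • (Y * X)) :
    ∃ (D : Type) (_ : DivisionRing D) (_ : Algebra k D) (x y : D), IsQ k q D x y := by
  obtain ⟨D, iD, iA, ι, hι, hfr⟩ := fractions (k := k) (R := R hP)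
    (fun a b ha hb => oreL hP a b ha hb) (fun a b ha hb => oreR hP a b ha hb)
  obtain ⟨x0, hx0⟩ : ∃ x0 : R hP, (x0 : A) = X := ⟨⟨X, by
    have : X = M (1, 0) := by rw [hM]; simp
    rw [mem_R, this]
    exact Submodule.subset_span ⟨_, rfl⟩⟩, rfl⟩
  obtain ⟨y0, hy0⟩ : ∃ y0 : R hP, (y0 : A) = Y := ⟨⟨Y, by
    have : Y = M (0, 1) := by rw [hM]; simp
    rw [mem_R, this]
    exact Submodule.subset_span ⟨_, rfl⟩⟩, rfl⟩
  have hmon : ∀ p : ℕ × ℕ, ((x0 ^ p.1 * y0 ^ p.2 : R hP) : A) = M p := by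
    intro p
    rw [MulMemClass.coe_mul, SubmonoidClass.coe_pow, SubmonoidClass.coe_pow, hx0, hy0, hM]
  have hadj : ∀ r : R hP, ι r ∈ Algebra.adjoin k {ι x0, ι y0} := by
    rintro ⟨a, ha⟩
    have ha2 := ha
    rw [mem_R, ← Finsupp.range_linearCombination] at ha2
    obtain ⟨f, hf⟩ := ha2
    have h1 : (⟨a, ha⟩ : R hP) = ∑ p ∈ f.support, f p • (x0 ^ p.1 * y0 ^ p.2) := by
      apply Subtype.ext
      rw [AddSubmonoidClass.coe_finsetSum]
      rw [Finsupp.linearCombination_apply, Finsupp.sum] at hf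
      refine hf.symm.trans (Finset.sum_congr rfl fun p _ => ?_)
      rw [← hmon p]
      rfl
    rw [h1, map_sum]
    refine Subalgebra.sum_mem _ fun p _ => ?_
    rw [map_smul, map_mul, map_pow, map_pow]
    refine Subalgebra.smul_mem _ (Subalgebra.mul_mem _ (Subalgebra.pow_mem _ ?_ _)
      (Subalgebra.pow_mem _ ?_ _)) _
    · exact Algebra.subset_adjoin (by simp)
    · exact Algebra.subset_adjoin (by simp)
  refine ⟨D, iD, iA, ι x0, ι y0, ?_, ?_, ?_⟩
  · -- the relation
    have h1 : x0 * y0 = q • (y0 * x0) := by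
      apply Subtype.ext
      show (x0 : A) * (y0 : A) = q • ((y0 : A) * (x0 : A))
      rw [hx0, hy0]
      exact hrel
    rw [← map_mul, h1, map_smul, map_mul, Algebra.smul_def]
  · -- the monomials are independent
    have h1 : LinearIndependent k (fun p : ℕ × ℕ => x0 ^ p.1 * y0 ^ p.2) := by
      have h2 : LinearIndependent k ((R hP).val.toLinearMap ∘ fun p : ℕ × ℕ =>
          (x0 ^ p.1 * y0 ^ p.2)) := by
        have h3 : ((R hP).val.toLinearMap ∘ fun p : ℕ × ℕ => (x0 ^ p.1 * y0 ^ p.2)) = M := by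
          funext p
          exact hmon p
        rw [h3]
        exact hP.indep
      exact LinearIndependent.of_comp _ h2
    have h3 := h1.map' ι.toLinearMap (LinearMap.ker_eq_bot.2 hι)
    have h4 : (fun m : ℕ × ℕ => ι x0 ^ m.1 * ι y0 ^ m.2) =
        (ι.toLinearMap ∘ fun p : ℕ × ℕ => x0 ^ p.1 * y0 ^ p.2) := by
      funext p
      show _ = ι (x0 ^ p.1 * y0 ^ p.2)
      rw [map_mul, map_pow, map_pow]
    rw [h4]
    exact h3
  · -- the fractions
    intro d
    obtain ⟨a, b, hb, hab⟩ := hfr d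
    have hιb : ι b ≠ 0 := by
      intro h
      exact hb (hι (by rw [h, map_zero]))
    exact ⟨ι a, ι b, hadj a, hadj b, hιb, by rw [eq_mul_inv_iff_mul_eq₀ hιb]; exact hab⟩

theorem t_exist : S_EXIST := by
  intro k _ q hq
  refine final q (M k q) (plane k q hq) (X k q) (Y k) (fun p => rfl) ?_
  apply Finsupp.lhom_ext
  rintro ⟨a, b⟩ c
  rw [Module.End.mul_apply, LinearMap.smul_apply, Module.End.mul_apply, X_single, Y_single, Y_single,
    X_single, Finsupp.smul_single, smul_eq_mul]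
  congr 1
  rw [pow_succ']
  ring

end Pool.Agent.N771.QD
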